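import Pool.Agent.E8helper72.HR.Stm

set_option autoImplicit false

open MeasureTheory Set Real
open scoped ENNReal Pointwise

namespace Pool.Agent.E8helper79.HR

open H72HR

/-- the space -/
abbrev V := WithLp 2 (ℂ × ℝ)

/-- the stretched cone in the ball -/
noncomputable def AA (P : Set V) (c : ℝ) : ℝ≥0∞ :=
  volume {p : V | WithLp.toLp 2 (c⁻¹ • p.fst, p.snd) ∈ P ∧ ‖p‖ ≤ 1}

/-- the rotation about the axis -/
noncomputable def rot (a : Circle) : V ≃ₗᵢ[ℝ] V :=
  LinearIsometryEquiv.withLpProdCongr 2 (rotation a) (LinearIsometryEquiv.refl ℝ ℝ)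

theorem rot_fst (a : Circle) (p : V) : (rot a p).fst = (a : ℂ) * p.fst := rfl

theorem rot_snd (a : Circle) (p : V) : (rot a p).snd = p.snd := rfl

theorem cont_fst : Continuous fun p : V => p.fst := by fun_prop

theorem cont_snd : Continuous fun p : V => p.snd := by fun_prop

theorem cont_dil (c : ℝ) : Continuous fun p : V => (WithLp.toLp 2 (c • p.fst, p.snd) : V) := by
  fun_prop

theorem meas_set {P : Set V} (hP : IsClosed P) (c : ℝ) :
    MeasurableSet {p : V | WithLp.toLp 2 (c⁻¹ • p.fst, p.snd) ∈ P ∧ ‖p‖ ≤ 1} := by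
  apply IsClosed.measurableSet
  exact (hP.preimage (cont_dil c⁻¹)).inter (isClosed_le continuous_norm continuous_const)

theorem AA_iso {P : Set V} (hP : IsClosed P) {c : ℝ} (R : V ≃ₗᵢ[ℝ] V)
    (hR : ∀ n, n ∈ P ↔ WithLp.toLp 2 (c⁻¹ • (R n).fst, (R n).snd) ∈ P) : AA P 1 = AA P c := by
  unfold AA
  rw [← R.measurePreserving.measure_preimage (meas_set hP c).nullMeasurableSet]
  congr 1
  ext n
  simp only [mem_ofPred_eq, mem_preimage, inv_one, one_smul, R.norm_map]
  rw [← hR]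
  rfl

theorem AA_rot {P : Set V} (hP : IsClosed P) (a : Circle) (c : ℝ) :
    AA ((rot a) ⁻¹' P) c = AA P c := by
  unfold AA
  rw [← (rot a).measurePreserving.measure_preimage (meas_set hP c).nullMeasurableSet]
  congr 1
  ext n
  simp only [mem_ofPred_eq, mem_preimage, (rot a).norm_map]
  have h1 : rot a (WithLp.toLp 2 (c⁻¹ • n.fst, n.snd)) =
      (WithLp.toLp 2 (c⁻¹ • (rot a n).fst, (rot a n).snd) : V) := by
    apply WithLp.ofLp_injective
    apply Prod.ext
    · change (rot a (WithLp.toLp 2 (c⁻¹ • n.fst, n.snd))).fst = c⁻¹ • (rot a n).fst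
      rw [rot_fst, rot_fst]
      change (a : ℂ) * (c⁻¹ • n.fst) = _
      rw [mul_smul_comm]
    · rfl
  rw [h1]

theorem wK_meas {K : Set ℂ} (hK : IsClosed K) : Measurable (wK K) := by
  have h1 : MeasurableSet {q : ℝ × ℝ | q.2 ∈ Ioo (-π) π ∧
      (q.1 : ℂ) * Complex.exp (q.2 * Complex.I) ∈ K} := by
    apply MeasurableSet.inter
    · exact measurable_snd measurableSet_Ioo
    · exact (hK.preimage (by fun_prop : Continuous fun q : ℝ × ℝ =>
        (q.1 : ℂ) * Complex.exp (q.2 * Complex.I))).measurableSet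
  exact measurable_measure_prodMk_left h1

theorem wK_le (K : Set ℂ) (r : ℝ) : wK K r ≤ ENNReal.ofReal (2 * π) := by
  unfold wK
  calc _ ≤ volume (Ioo (-π) π) := measure_mono fun θ h => h.1
    _ = ENNReal.ofReal (2 * π) := by
      rw [Real.volume_Ioo]
      congr 1
      ring

theorem wK_zero {K : Set ℂ} {ε : ℝ} (h : ∀ z ∈ K, ε ≤ z.re) {r : ℝ} (h0 : 0 < r) (hr : r < ε) :
    wK K r = 0 := by
  unfold wK
  have h1 : {θ : ℝ | θ ∈ Ioo (-π) π ∧ (r : ℂ) * Complex.exp (θ * Complex.I) ∈ K} = ∅ := by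
    ext θ
    simp only [mem_ofPred_eq, mem_empty_iff_false, iff_false, not_and]
    intro _ h2
    have h3 := h _ h2
    have h4 : ((r : ℂ) * Complex.exp (θ * Complex.I)).re ≤ r := by
      calc _ ≤ ‖(r : ℂ) * Complex.exp (θ * Complex.I)‖ := Complex.re_le_norm _
        _ = r := by
          rw [norm_mul, Complex.norm_exp_ofReal_mul_I, mul_one, Complex.norm_real,
            Real.norm_eq_abs, abs_of_pos h0]
    linarith
  rw [h1, measure_empty]

/-- the core: a cone in a half space `re ≥ ε snd` -/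
theorem core (h2 : S_UNI) (h3 : S_VOL) (h4 : S_TV) {P : Set V} (hP : IsClosed P)
    (hcv : Convex ℝ P) (hs : ∀ p ∈ P, ∀ s : ℝ, 0 ≤ s → s • p ∈ P) (hsnd : ∀ p ∈ P, 0 ≤ p.snd)
    {ε : ℝ} (hε : 0 < ε) (hK : ∀ z : ℂ, (WithLp.toLp 2 (z, (1 : ℝ)) : V) ∈ P → ε ≤ z.re)
    {a b c : ℝ} (ha : 0 < a) (hab : a < b) (hbc : b < c) (e1 : AA P a = AA P b)
    (e2 : AA P b = AA P c) : AA P a = 0 := by
  set K : Set ℂ := {z : ℂ | (WithLp.toLp 2 (z, (1 : ℝ)) : V) ∈ P} with hKd
  have hKc : IsClosed K := hP.preimage (by fun_prop : Continuous fun z : ℂ =>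
    (WithLp.toLp 2 (z, (1 : ℝ)) : V))
  have hKcv : Convex ℝ K := by
    intro x hx y hy s t hs0 ht0 hst
    have h5 := hcv hx hy hs0 ht0 hst
    have h6 : s • (WithLp.toLp 2 (x, (1 : ℝ)) : V) + t • (WithLp.toLp 2 (y, (1 : ℝ)) : V) =
        WithLp.toLp 2 (s • x + t • y, (1 : ℝ)) := by
      apply WithLp.ofLp_injective
      apply Prod.ext
      · rfl
      · change s • (1 : ℝ) + t • (1 : ℝ) = 1
        simpa using hst
    rw [h6] at h5
    exact h5
  set w : ℝ → ℝ≥0∞ := (Ioi (0 : ℝ)).indicator (wK K) with hw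
  have hwm : Measurable w := (wK_meas hKc).indicator measurableSet_Ioi
  have hint : ∀ x : ℝ, 0 < x → AA P x = ∫⁻ r in Ioi (0 : ℝ), w r * ENNReal.ofReal (kk x r) := by
    intro x hx
    unfold AA
    rw [h3 P hP hs hsnd x hx]
    apply setLIntegral_congr_fun measurableSet_Ioi
    intro r hr
    simp only [hw]
    rw [indicator_of_mem hr]
  have h5 := h4 w hwm ⟨2 * π, fun r => ?_⟩ ⟨ε, hε, fun r hr => ?_⟩ ?_ a b c ha hab hbc ?_ ?_
  · rw [hint a ha]
    exact h5
  · rw [hw]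
    by_cases h : r ∈ Ioi (0 : ℝ)
    · rw [indicator_of_mem h]
      exact wK_le K r
    · rw [indicator_of_notMem h]
      exact bot_le
  · rw [hw]
    by_cases h : r ∈ Ioi (0 : ℝ)
    · rw [indicator_of_mem h]
      exact wK_zero hK h hr
    · rw [indicator_of_notMem h]
  · intro r₁ r₂ r₃ g1 g2 g3
    rw [hw, indicator_of_mem (mem_Ioi.2 g1), indicator_of_mem (mem_Ioi.2 (g1.trans g2)),
      indicator_of_mem (mem_Ioi.2 ((g1.trans g2).trans g3))]
    exact h2 K hKc hKcv ⟨ε, hε, hK⟩ r₁ r₂ r₃ g1 g2 g3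
  · rw [← hint a ha, ← hint b (ha.trans hab)]
    exact e1
  · rw [← hint b (ha.trans hab), ← hint c ((ha.trans hab).trans hbc)]
    exact e2

/-- three different numbers can be sorted -/
theorem sort3 {A : ℝ → ℝ≥0∞} (hA : ∀ a b c : ℝ, 0 < a → a < b → b < c → A a = A b → A b = A c →
    A a = 0) {x y z : ℝ} (hx : 0 < x) (hy : 0 < y) (hz : 0 < z) (hxy : x ≠ y) (hyz : y ≠ z)
    (hxz : x ≠ z) (e1 : A x = A y) (e2 : A x = A z) : A x = 0 := by
  rcases lt_or_gt_of_ne hxy with h1 | h1 <;> rcases lt_or_gt_of_ne hyz with h2 | h2 <;>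
    rcases lt_or_gt_of_ne hxz with h3 | h3
  · exact hA x y z hx h1 h2 e1 (e1.symm.trans e2)
  · exfalso; linarith
  · exact hA x z y hx h3 h2 e2 (e2.symm.trans e1)
  · rw [e2]
    exact hA z x y hz h3 h1 e2.symm e1
  · rw [e1]
    exact hA y x z hy h1 h3 e1.symm e2
  · rw [e1]
    exact hA y z x hy h2 h3 (e1.symm.trans e2) e2.symm
  · exfalso; linarith
  · rw [e2]
    exact hA z y x hz h2 h1 (e2.symm.trans e1) e1.symm

theorem vol_zero {P : Set V} (hs : ∀ p ∈ P, ∀ s : ℝ, 0 ≤ s → s • p ∈ P) (h : AA P 1 = 0) :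
    volume P = 0 := by
  unfold AA at h
  set S : Set V := {p : V | WithLp.toLp 2 ((1 : ℝ)⁻¹ • p.fst, p.snd) ∈ P ∧ ‖p‖ ≤ 1} with hS
  have hsub : P ⊆ ⋃ n : ℕ, ((n + 1 : ℕ) : ℝ) • S := by
    intro p hp
    obtain ⟨n, hn⟩ := exists_nat_ge ‖p‖
    rw [mem_iUnion]
    refine ⟨n, ?_⟩
    have hn0 : (0 : ℝ) < ((n + 1 : ℕ) : ℝ) := by positivity
    rw [mem_smul_set_iff_inv_smul_mem₀ hn0.ne']
    have h1 : (((n + 1 : ℕ) : ℝ)⁻¹ • p) ∈ P := hs p hp _ (by positivity)
    refine ⟨?_, ?_⟩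
    · rw [inv_one, one_smul]
      exact h1
    · rw [norm_smul, norm_inv, Real.norm_of_nonneg hn0.le, inv_mul_le_iff₀ hn0, mul_one]
      refine hn.trans ?_
      push_cast
      linarith
  refine measure_mono_null hsub ?_
  rw [measure_iUnion_null_iff]
  intro n
  rw [Measure.addHaar_smul, h, mul_zero]

theorem t_NULL (h1 : S_UNI) (h2 : S_VOL) (h3 : S_TV) : S_NULL := by
  intro P hP hcv hs hsnd h01 c₁ c₂ hc1 hc2 hn1 hn2 hne hR1 hR2
  obtain ⟨R₁, hR1⟩ := hR1
  obtain ⟨R₂, hR2⟩ := hR2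
  have e1 := AA_iso hP R₁ hR1
  have e2 := AA_iso hP R₂ hR2
  apply vol_zero hs
  set K : Set ℂ := {z : ℂ | (WithLp.toLp 2 (z, (1 : ℝ)) : V) ∈ P} with hKd
  have hKc : IsClosed K := hP.preimage (by fun_prop : Continuous fun z : ℂ =>
    (WithLp.toLp 2 (z, (1 : ℝ)) : V))
  have hKcv : Convex ℝ K := by
    intro x hx y hy s t hs0 ht0 hst
    have h5 := hcv hx hy hs0 ht0 hst
    have h6 : s • (WithLp.toLp 2 (x, (1 : ℝ)) : V) + t • (WithLp.toLp 2 (y, (1 : ℝ)) : V) =
        WithLp.toLp 2 (s • x + t • y, (1 : ℝ)) := by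
      apply WithLp.ofLp_injective
      apply Prod.ext
      · rfl
      · change s • (1 : ℝ) + t • (1 : ℝ) = 1
        simpa using hst
    rw [h6] at h5
    exact h5
  have h0K : (0 : ℂ) ∉ K := h01
  obtain ⟨f, u, hfu, hfK⟩ := geometric_hahn_banach_point_closed hKcv hKc h0K
  rw [map_zero] at hfu
  by_cases hKe : K = ∅
  · unfold AA
    rw [h2 P hP hs hsnd 1 one_pos]
    rw [← hKd, hKe]
    simp [wK]
  · obtain ⟨z0, hz0⟩ := nonempty_iff_ne_empty.mpr hKe
    -- the functional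
    set ω : ℂ := ⟨f 1, f Complex.I⟩ with hω
    have hf : ∀ z : ℂ, f z = (z * (starRingEnd ℂ) ω).re := by
      intro z
      have h5 : z = z.re • (1 : ℂ) + z.im • Complex.I := by
        apply Complex.ext <;> simp
      conv_lhs => rw [h5]
      rw [map_add, map_smul, map_smul, Complex.mul_re, Complex.conj_re, Complex.conj_im]
      simp only [smul_eq_mul, hω]
      ring
    have hω0 : ω ≠ 0 := by
      intro h
      have h5 := hfK z0 hz0
      rw [hf, h, map_zero, mul_zero, Complex.zero_re] at h5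
      linarith
    have hωn : 0 < ‖ω‖ := norm_pos_iff.mpr hω0
    obtain ⟨η, hη⟩ : ∃ η : Circle, (η : ℂ) = ω / ‖ω‖ := by
      refine ⟨⟨ω / ‖ω‖, ?_⟩, rfl⟩
      have h7 : ‖ω / ‖ω‖‖ = 1 := by
        rw [norm_div, Complex.norm_real, norm_norm, div_self hωn.ne']
      exact mem_sphere_zero_iff_norm.mpr h7
    have hfη : ∀ z : ℂ, f ((η : ℂ) * z) = ‖ω‖ * z.re := by
      intro z
      have h5 : (η : ℂ) * z * (starRingEnd ℂ) ω = (‖ω‖ : ℂ) * z := by
        rw [hη]
        have h6 : ω * (starRingEnd ℂ) ω = (‖ω‖ : ℂ) ^ 2 := by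
          rw [Complex.mul_conj, Complex.normSq_eq_norm_sq]
          push_cast
          rfl
        have h7 : (‖ω‖ : ℂ) ≠ 0 := by exact_mod_cast hωn.ne'
        field_simp
        linear_combination z * h6
      rw [hf, h5, Complex.re_ofReal_mul]
    set P1 : Set V := (rot η) ⁻¹' P with hP1
    have hP1c : IsClosed P1 := hP.preimage (rot η).continuous
    have hP1cv : Convex ℝ P1 := hcv.linear_preimage ((rot η).toLinearEquiv : V →ₗ[ℝ] V)
    have key := sort3 (A := AA P1) (fun a b c ha hab hbc e1 e2 =>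
      core h1 h2 h3 hP1c hP1cv (by
        intro p hp s hs0
        have := hs _ hp s hs0
        rw [← map_smul] at this
        exact this) (by
        intro p hp
        exact hsnd (rot η p) hp) (ε := u / ‖ω‖) (div_pos hfu hωn) (by
        intro z hz
        have h5 : (η : ℂ) * z ∈ K := hz
        have h6 := hfK _ h5
        rw [hfη] at h6
        rw [div_le_iff₀ hωn]
        linarith) ha hab hbc e1 e2) one_pos hc1 hc2 (Ne.symm hn1) hne (Ne.symm hn2)
      (by rw [AA_rot hP, AA_rot hP]; exact e1) (by rw [AA_rot hP, AA_rot hP]; exact e2)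
    rw [← AA_rot hP η]
    exact key

end Pool.Agent.E8helper79.HR
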